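import Mathlib

section

/-!
# Patterns on the Baire space and the extension lemma
-/

namespace Pool.Agent.Lib.MP_d7d6c7_an

open Filter Topology Set Finset

/-- the Baire space -/
abbrev G := ℕ → ℕ

/-- a sequence of points visiting every nonempty open set infinitely often -/
noncomputable def w (i : ℕ) : G := TopologicalSpace.denseSeq G (Nat.unpair i).1

theorem w_spec (x : G) (l i₀ : ℕ) : ∃ i, i₀ ≤ i ∧ l ≤ i ∧ ∀ k < l, w i k = x k := by
  have hopen : IsOpen {y : G | ∀ k < l, y k = x k} := by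
    have : {y : G | ∀ k < l, y k = x k} = ⋂ k ∈ Set.Iio l, {y : G | y k = x k} := by
      ext y; simp
    rw [this]
    refine (Set.finite_Iio l).isOpen_biInter fun k _ => ?_
    exact (isOpen_discrete ({x k} : Set ℕ)).preimage (continuous_apply (A := fun _ => ℕ) k)
  obtain ⟨_, hy, n, rfl⟩ := (TopologicalSpace.denseRange_denseSeq G).inter_open_nonempty _ hopen
    ⟨x, fun k _ => rfl⟩
  refine ⟨Nat.pair n (max i₀ l), ?_, ?_, ?_⟩
  · exact (le_max_left _ _).trans (Nat.right_le_pair _ _)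
  · exact (le_max_right _ _).trans (Nat.right_le_pair _ _)
  · intro k hk
    rw [w, Nat.unpair_pair]
    exact hy k hk

/-- pattern sets -/
def P (i r : ℕ) : Set G := {y | (∀ k < i, y k = w i k) ∧ y i = r}

/-- new value on the first half -/
noncomputable def up (v b : ℝ) : ℝ := if (0 ≤ b ↔ 0 ≤ v) then v else v + b

/-- new value on the second half -/
noncomputable def lo (v b : ℝ) : ℝ := if (0 ≤ b ↔ 0 ≤ v) then v - b else v

theorem up_sub_lo (v b : ℝ) : up v b - lo v b = b := by
  unfold up lo; split_ifs <;> ring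

theorem abs_up_le {v b : ℝ} (hv : |v| ≤ 1) (hb : |b| ≤ 1) : |up v b| ≤ 1 := by
  unfold up
  rw [abs_le] at *
  split_ifs with h
  · exact hv
  · by_cases h1 : 0 ≤ b
    · have h2 : ¬ 0 ≤ v := fun h2 => h ⟨fun _ => h2, fun _ => h1⟩
      constructor <;> linarith
    · have h2 : 0 ≤ v := by
        by_contra h2
        exact h ⟨fun h3 => absurd h3 h1, fun h3 => absurd h3 h2⟩
      constructor <;> linarith

theorem abs_lo_le {v b : ℝ} (hv : |v| ≤ 1) (hb : |b| ≤ 1) : |lo v b| ≤ 1 := by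
  unfold lo
  rw [abs_le] at *
  split_ifs with h
  · by_cases h1 : 0 ≤ b
    · have h2 := h.1 h1
      constructor <;> linarith
    · have h2 : ¬ 0 ≤ v := fun h2 => h1 (h.2 h2)
      constructor <;> linarith
  · exact hv

theorem up_zero (v : ℝ) : up v 0 = v := by unfold up; split_ifs <;> ring
theorem lo_zero (v : ℝ) : lo v 0 = v := by unfold lo; split_ifs <;> ring

open Classical in
/-- the value after the first `i` steps -/
noncomputable def val (m : ℕ) (b : ℕ → ℝ) : ℕ → G → ℝ
  | 0, _ => 0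
  | (i + 1), x => if (∀ k < i, x k = w i k) then
      (if x i < m then up (val m b i x) (b i) else
        if x i < m + m then lo (val m b i x) (b i) else val m b i x)
      else val m b i x

theorem val_congr (m : ℕ) (b : ℕ → ℝ) (i : ℕ) {x y : G} (h : ∀ k < i, x k = y k) :
    val m b i x = val m b i y := by
  induction i with
  | zero => rfl
  | succ i ih =>
    have h1 := ih fun k hk => h k (Nat.lt_succ_of_lt hk)
    have h2 : (∀ k < i, x k = w i k) ↔ (∀ k < i, y k = w i k) := by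
      constructor
      · intro h3 k hk; rw [← h k (Nat.lt_succ_of_lt hk)]; exact h3 k hk
      · intro h3 k hk; rw [h k (Nat.lt_succ_of_lt hk)]; exact h3 k hk
    simp only [val, h1, h2, h i (Nat.lt_succ_self i)]

theorem abs_val_le {m : ℕ} {b : ℕ → ℝ} (hb : ∀ i, |b i| ≤ 1) (i : ℕ) (x : G) :
    |val m b i x| ≤ 1 := by
  induction i with
  | zero => simp [val]
  | succ i ih =>
    simp only [val]
    split_ifs
    · exact abs_up_le ih (hb i)
    · exact abs_lo_le ih (hb i)
    · exact ih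
    · exact ih

theorem val_succ_up {m : ℕ} {b : ℕ → ℝ} {i r : ℕ} {x : G} (hx : x ∈ P i r) (hr : r < m) :
    val m b (i + 1) x = up (val m b i (w i)) (b i) := by
  simp only [val]
  rw [if_pos hx.1, if_pos (by rw [hx.2]; exact hr), val_congr m b i hx.1]

theorem val_succ_lo {m : ℕ} {b : ℕ → ℝ} {i r : ℕ} {x : G} (hx : x ∈ P i r) (hr : m ≤ r)
    (hr2 : r < m + m) : val m b (i + 1) x = lo (val m b i (w i)) (b i) := by
  simp only [val]
  rw [if_pos hx.1, if_neg (by rw [hx.2]; exact not_lt.2 hr), if_pos (by rw [hx.2]; exact hr2),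
    val_congr m b i hx.1]

theorem val_stable {m : ℕ} {b : ℕ → ℝ} {i L : ℕ} {x : G} (hL : i ≤ L)
    (h : ∀ i', i ≤ i' → i' < L → b i' ≠ 0 → ¬ ∀ k < i', x k = w i' k) :
    val m b L x = val m b i x := by
  induction L, hL using Nat.le_induction with
  | base => rfl
  | succ L hL ih =>
    rw [← ih fun i' h1 h2 h3 => h i' h1 (Nat.lt_succ_of_lt h2) h3]
    by_cases hb : b L = 0
    · simp only [val, hb, up_zero, lo_zero, ite_self]
    · have := h L hL (Nat.lt_succ_self L) hb
      simp only [val]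
      rw [if_neg this]

/-- the basic estimate -/
theorem val_pattern {m : ℕ} {b : ℕ → ℝ} (hb : ∀ i, |b i| ≤ 1) {J : Finset ℕ}
    (hJ : ∀ i, i ∉ J → b i = 0) {L : ℕ} (hL : ∀ i ∈ J, i < L) {i : ℕ} {ξ : ℕ → G}
    (hξ : ∀ r, ξ r ∈ P i r) :
    |∑ r ∈ range m, (val m b L (ξ r) - val m b L (ξ (m + r))) - m * b i| ≤ 2 * J.card := by
  set L' := max L (i + 1) with hL'
  have hLL : ∀ x : G, val m b L x = val m b L' x := by
    intro x
    refine (val_stable (le_max_left _ _) fun i' h1 _ h3 => ?_).symm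
    by_contra h4
    exact absurd (hL i' (by by_contra h5; exact h3 (hJ i' h5))) (not_lt.2 h1)
  set v := val m b i (w i) with hv
  set t : ℕ → ℝ := fun r => if r < m then up v (b i) else lo v (b i) with ht
  set K := J.image (fun i' => w i' i) with hK
  have key : ∀ r < m + m, r ∉ K → val m b L (ξ r) = t r := by
    intro r hr hrK
    have h1 : val m b (i + 1) (ξ r) = t r := by
      simp only [ht]
      split_ifs with h
      · exact val_succ_up (hξ r) h
      · exact val_succ_lo (hξ r) (not_lt.1 h) hr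
    rw [← h1, hLL]
    refine val_stable (le_max_right _ _) fun i' h2 _ h4 h5 => hrK ?_
    rw [hK, Finset.mem_image]
    refine ⟨i', by by_contra h6; exact h4 (hJ i' h6), ?_⟩
    rw [← h5 i (by omega)]
    exact (hξ r).2
  have hd : ∀ r ∈ range (m + m), |val m b L (ξ r) - t r| ≤ if r ∈ K then 2 else 0 := by
    intro r hr
    split_ifs with h
    · have h1 := abs_val_le (m := m) hb L (ξ r)
      have h2 : |t r| ≤ 1 := by
        simp only [ht]
        have hv1 : |v| ≤ 1 := abs_val_le hb i (w i)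
        split_ifs
        · exact abs_up_le hv1 (hb i)
        · exact abs_lo_le hv1 (hb i)
      have h3 := abs_sub (val m b L (ξ r)) (t r)
      linarith
    · rw [key r (Finset.mem_range.1 hr) h, sub_self, abs_zero]
  have e1 : ∑ r ∈ range m, (val m b L (ξ r) - val m b L (ξ (m + r))) - m * b i =
      ∑ r ∈ range m, (val m b L (ξ r) - t r) - ∑ r ∈ range m, (val m b L (ξ (m + r)) - t (m + r)) := by
    have e2 : ∑ r ∈ range m, (t r - t (m + r)) = m * b i := by
      have : ∀ r ∈ range m, t r - t (m + r) = b i := by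
        intro r hr
        simp only [ht]
        rw [if_pos (Finset.mem_range.1 hr), if_neg (by omega), up_sub_lo]
      rw [Finset.sum_congr rfl this]
      simp
    rw [← e2, ← Finset.sum_sub_distrib, ← Finset.sum_sub_distrib]
    refine Finset.sum_congr rfl fun r _ => by ring
  rw [e1]
  refine (abs_sub _ _).trans ?_
  have e3 : |∑ r ∈ range m, (val m b L (ξ r) - t r)| +
      |∑ r ∈ range m, (val m b L (ξ (m + r)) - t (m + r))| ≤
      ∑ r ∈ range (m + m), |val m b L (ξ r) - t r| := by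
    rw [Finset.sum_range_add]
    exact add_le_add (Finset.abs_sum_le_sum_abs _ _) (Finset.abs_sum_le_sum_abs _ _)
  refine e3.trans ((Finset.sum_le_sum hd).trans ?_)
  rw [Finset.sum_ite, Finset.sum_const_zero, add_zero, Finset.sum_const, nsmul_eq_mul, mul_comm]
  refine mul_le_mul_of_nonneg_left ?_ (by norm_num)
  have h1 : ((range (m + m)).filter fun r => r ∈ K).card ≤ K.card :=
    Finset.card_le_card fun r hr => (Finset.mem_filter.1 hr).2
  have h2 : K.card ≤ J.card := Finset.card_image_le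
  exact_mod_cast h1.trans h2

/-- the number of terms in a pattern -/
def mm (n : ℕ) : ℕ := 2 * (n + 1) ^ 3

theorem mm_pos (n : ℕ) : 0 < mm n := by unfold mm; positivity

/-- the extension lemma -/
theorem exists_ext {H : Type*} [NormedAddCommGroup H] [InnerProductSpace ℝ H] {e : ℕ → H}
    (he : Orthonormal ℝ e) {j : ℕ → ℕ} (hj : Function.Injective j) (n : ℕ) {h : H}
    (hh : ‖h‖ ≤ 1) : ∃ φ : G → ℝ, (∀ x, |φ x| ≤ 1) ∧ ∀ (i : ℕ) (ξ : ℕ → G), (∀ r, ξ r ∈ P i r) →
      |(∑ r ∈ range (mm n), (φ (ξ r) - φ (ξ (mm n + r)))) / mm n - inner ℝ (e (j i)) h| ≤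
        2 / (n + 1) := by
  have hej : Orthonormal ℝ (e ∘ j) := he.comp j hj
  set c : ℕ → ℝ := fun i => inner ℝ (e (j i)) h with hc
  have hn : (0 : ℝ) < (n : ℝ) + 1 := by positivity
  have hε : (0 : ℝ) < 1 / (n + 1) := by positivity
  have hfin : {i | 1 / ((n : ℝ) + 1) < |c i|}.Finite := by
    have h1 : Summable fun i => ‖inner ℝ ((e ∘ j) i) h‖ ^ 2 := hej.inner_products_summable h
    have h2 := h1.tendsto_cofinite_zero
    have h3 : ∀ᶠ i in cofinite, ‖inner ℝ ((e ∘ j) i) h‖ ^ 2 < (1 / ((n : ℝ) + 1)) ^ 2 :=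
      (tendsto_order.1 h2).2 _ (by positivity)
    refine (Filter.eventually_cofinite.1 h3).subset fun i hi h4 => ?_
    have h5 : |c i| < 1 / ((n : ℝ) + 1) := by
      have := abs_lt_of_sq_lt_sq h4 hε.le
      simpa [hc] using this
    exact absurd h5 (not_lt.2 (le_of_lt hi))
  set J := hfin.toFinset with hJ
  have hJmem : ∀ i, i ∈ J ↔ 1 / ((n : ℝ) + 1) < |c i| := fun i => by
    rw [hJ, Set.Finite.mem_toFinset]; rfl
  have hcard : (J.card : ℝ) ≤ (n + 1) ^ 2 := by
    have h1 := hej.sum_inner_products_le (s := J) h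
    have h2 : ∑ i ∈ J, (1 / ((n : ℝ) + 1)) ^ 2 ≤ ∑ i ∈ J, ‖inner ℝ ((e ∘ j) i) h‖ ^ 2 := by
      refine Finset.sum_le_sum fun i hi => ?_
      have := (hJmem i).1 hi
      exact pow_le_pow_left₀ hε.le (le_of_lt this) 2
    rw [Finset.sum_const, nsmul_eq_mul] at h2
    have h3 : ‖h‖ ^ 2 ≤ 1 := pow_le_one₀ (norm_nonneg h) hh
    have h4 : (J.card : ℝ) * (1 / ((n : ℝ) + 1)) ^ 2 ≤ 1 := h2.trans (h1.trans h3)
    rw [one_div, inv_pow, ← div_eq_mul_inv, div_le_one (by positivity)] at h4
    exact h4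
  set b : ℕ → ℝ := fun i => if i ∈ J then c i else 0 with hb
  have hc1 : ∀ i, |c i| ≤ 1 := by
    intro i
    refine (abs_real_inner_le_norm _ _).trans ?_
    rw [he.1, one_mul]
    exact hh
  have hb1 : ∀ i, |b i| ≤ 1 := by
    intro i
    simp only [hb]
    split_ifs
    · exact hc1 i
    · simp
  set L := J.sup id + 1 with hL
  have hL' : ∀ i ∈ J, i < L := fun i hi => Nat.lt_succ_of_le (Finset.le_sup (f := id) hi)
  refine ⟨val (mm n) b L, abs_val_le hb1 L, fun i ξ hξ => ?_⟩
  have h1 := val_pattern (m := mm n) hb1 (J := J) (fun i hi => if_neg hi) hL' hξ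
  have hm : (0 : ℝ) < mm n := by exact_mod_cast mm_pos n
  have h2 : |b i - c i| ≤ 1 / (n + 1) := by
    simp only [hb]
    split_ifs with h
    · rw [sub_self, abs_zero]; exact hε.le
    · rw [zero_sub, abs_neg]
      exact not_lt.1 fun h3 => h ((hJmem i).2 h3)
  have h3 : |(∑ r ∈ range (mm n), (val (mm n) b L (ξ r) - val (mm n) b L (ξ (mm n + r)))) / mm n -
      b i| ≤ 1 / (n + 1) := by
    have e1 : (∑ r ∈ range (mm n), (val (mm n) b L (ξ r) - val (mm n) b L (ξ (mm n + r)))) / mm n -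
        b i = (∑ r ∈ range (mm n), (val (mm n) b L (ξ r) - val (mm n) b L (ξ (mm n + r))) -
          mm n * b i) / mm n := by
      field_simp
    rw [e1, abs_div, abs_of_pos hm, div_le_div_iff₀ hm hn]
    have h4 : (mm n : ℝ) = 2 * (n + 1) ^ 3 := by unfold mm; push_cast; ring
    have h7 : 2 * (J.card : ℝ) * (n + 1) ≤ 1 * mm n := by
      rw [h4]
      calc 2 * (J.card : ℝ) * (n + 1) ≤ 2 * (n + 1) ^ 2 * (n + 1) := by gcongr
        _ = 1 * (2 * (n + 1) ^ 3) := by ring
    exact (mul_le_mul_of_nonneg_right h1 hn.le).trans h7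
  have h5 := abs_sub_le ((∑ r ∈ range (mm n), (val (mm n) b L (ξ r) -
    val (mm n) b L (ξ (mm n + r)))) / mm n) (b i) (c i)
  have h6 : (2 : ℝ) / (n + 1) = 1 / (n + 1) + 1 / (n + 1) := by ring
  rw [h6]
  linarith

end Pool.Agent.Lib.MP_d7d6c7_an
end

section

section

/-!
# An abstract gliding hump lemma
-/

namespace Pool.Agent.Lib.MP_d7d6c7_an

open Filter Topology Set

/-- the data of a gliding hump argument -/
structure Hump {ι A : Type*} [AddCommGroup A] (B : Set (ι → A)) (g : ℕ → (ι → A) → ℝ) : Prop where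
  mix : ∀ b ∈ B, ∀ b' ∈ B, ∀ F : Set ι, (open Classical in F.piecewise b b') ∈ B
  zero_mem : (0 : ι → A) ∈ B
  neg_mem : ∀ b ∈ B, -b ∈ B
  neg : ∀ k, ∀ b ∈ B, g k (-b) = -g k b
  add : ∀ k, ∀ b ∈ B, ∀ F : Set ι, g k b = g k (F.indicator b) + g k (Fᶜ.indicator b)

variable {ι A : Type*} [AddCommGroup A] {B : Set (ι → A)} {g : ℕ → (ι → A) → ℝ}

theorem Hump.indicator_mem (h : Hump B g) {b : ι → A} (hb : b ∈ B) (F : Set ι) :
    F.indicator b ∈ B := by
  classical
  have := h.mix b hb 0 h.zero_mem F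
  have e : F.indicator b = F.piecewise b 0 := by
    ext i
    by_cases hi : i ∈ F <;> simp [hi]
  rw [e]
  convert this

theorem gliding (h : Hump B g) {C : ℝ}
    (H1 : ∀ b ∈ B, ∀ S : Finset ℕ, ∑ k ∈ S, g k b ≤ C)
    (H2 : ∀ k, ∀ η > 0, ∃ F : Finset ι, ∀ b ∈ B, |g k ((F : Set ι)ᶜ.indicator b)| ≤ η)
    (H3 : ∀ F : Finset ι, ∀ η > 0, ∀ᶠ k in atTop, ∀ b ∈ B, |g k ((F : Set ι).indicator b)| ≤ η)
    {η : ℝ} (hη : 0 < η) : ∀ᶠ k in atTop, ∀ b ∈ B, |g k b| ≤ η := by
  classical
  by_contra hcon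
  have hfr : ∃ᶠ k in atTop, ∃ b ∈ B, η < g k b := by
    refine (Filter.not_eventually.1 hcon).mono fun k hk => ?_
    push Not at hk
    obtain ⟨b, hb, hlt⟩ := hk
    rcases lt_abs.1 hlt with h1 | h1
    · exact ⟨b, hb, h1⟩
    · exact ⟨-b, h.neg_mem b hb, by rw [h.neg k b hb]; exact h1⟩
  -- tails for larger sets
  have H2' : ∀ k, ∀ η > 0, ∃ F : Finset ι, ∀ F' : Finset ι, F ⊆ F' → ∀ b ∈ B,
      |g k ((F' : Set ι)ᶜ.indicator b)| ≤ η := by
    intro k η hη
    obtain ⟨F, hF⟩ := H2 k η hη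
    refine ⟨F, fun F' hF' b hb => ?_⟩
    have h1 := hF ((F' : Set ι)ᶜ.indicator b) (h.indicator_mem hb _)
    rw [Set.indicator_indicator] at h1
    have h2 : (F : Set ι)ᶜ ∩ (F' : Set ι)ᶜ = (F' : Set ι)ᶜ := by
      ext i
      simp only [Set.mem_inter_iff, Set.mem_compl_iff, Finset.mem_coe]
      exact ⟨fun h3 => h3.2, fun h3 => ⟨fun h4 => h3 (hF' h4), h3⟩⟩
    rwa [h2] at h1
  have key : ∀ r : ℕ, ∃ (S : Finset ℕ) (F : Finset ι) (b : ι → A), b ∈ B ∧
      r * (η / 2) ≤ ∑ k ∈ S, g k ((F : Set ι).indicator b) ∧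
      ∀ b' ∈ B, |∑ k ∈ S, g k ((F : Set ι)ᶜ.indicator b')| ≤ η / 8 := by
    intro r
    induction r with
    | zero =>
      exact ⟨∅, ∅, 0, h.zero_mem, by simp, fun b' _ => by simp; positivity⟩
    | succ r ih =>
      obtain ⟨S, F, b, hb, hsum, htail⟩ := ih
      obtain ⟨k, ⟨b', hb', hkb⟩, hk3, hkS⟩ :=
        (hfr.and_eventually ((H3 F (η / 8) (by positivity)).and
          (eventually_gt_atTop (S.sup id)))).exists
      have hkS' : k ∉ S := fun hk => absurd (Finset.le_sup (f := id) hk) (not_le.2 hkS)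
      -- the new finite set
      have hδ : 0 < η / 8 / ((insert k S).card + 1 : ℝ) := by positivity
      choose Fk hFk using fun k' : ℕ => H2' k' _ hδ
      set F1 := F ∪ (insert k S).biUnion Fk with hF1
      have hFF : F ⊆ F1 := Finset.subset_union_left
      have hFk1 : ∀ k' ∈ insert k S, Fk k' ⊆ F1 := fun k' hk' =>
        (Finset.subset_biUnion_of_mem Fk hk').trans Finset.subset_union_right
      have htail1 : ∀ b'' ∈ B, |∑ k' ∈ insert k S, g k' ((F1 : Set ι)ᶜ.indicator b'')| ≤ η / 8 := by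
        intro b'' hb''
        refine (Finset.abs_sum_le_sum_abs _ _).trans ?_
        refine (Finset.sum_le_sum fun k' hk' => hFk k' F1 (hFk1 k' hk') b'' hb'').trans ?_
        rw [Finset.sum_const, nsmul_eq_mul, mul_div_assoc', div_le_iff₀ (by positivity)]
        nlinarith
      have htk : ∀ b'' ∈ B, |g k ((F1 : Set ι)ᶜ.indicator b'')| ≤ η / 8 := by
        intro b'' hb''
        refine (hFk k F1 (hFk1 k (Finset.mem_insert_self k S)) b'' hb'').trans ?_
        refine div_le_self (by positivity) ?_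
        have : (0 : ℝ) ≤ (insert k S).card := by positivity
        linarith
      set b2 : ι → A := (F : Set ι).piecewise b b' with hb2
      have hb2B : b2 ∈ B := by
        have := h.mix b hb b' hb' (F : Set ι)
        convert this
      -- splitting
      have e1 : ∀ c : ι → A, c ∈ B → ∀ k', g k' ((F1 : Set ι).indicator c) =
          g k' ((F : Set ι).indicator c) + g k' ((F : Set ι)ᶜ.indicator ((F1 : Set ι).indicator c)) := by
        intro c hc k'
        rw [h.add k' _ (h.indicator_mem hc _) (F : Set ι), Set.indicator_indicator]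
        congr 3
        ext i
        simp only [Set.mem_inter_iff, Finset.mem_coe]
        exact ⟨fun h3 => h3.1, fun h3 => ⟨h3, hFF h3⟩⟩
      have e2 : (F : Set ι).indicator b2 = (F : Set ι).indicator b := by
        ext i
        by_cases hi : i ∈ (F : Set ι)
        · rw [Set.indicator_of_mem hi, Set.indicator_of_mem hi, hb2, Set.piecewise_eq_of_mem _ _ _ hi]
        · rw [Set.indicator_of_notMem hi, Set.indicator_of_notMem hi]
      have e3 : (F : Set ι)ᶜ.indicator ((F1 : Set ι).indicator b2) =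
          (F : Set ι)ᶜ.indicator ((F1 : Set ι).indicator b') := by
        ext i
        by_cases hi : i ∈ (F : Set ι)
        · rw [Set.indicator_of_notMem (by simpa using hi),
            Set.indicator_of_notMem (by simpa using hi)]
        · have hc : i ∈ (F : Set ι)ᶜ := hi
          rw [Set.indicator_of_mem hc, Set.indicator_of_mem hc]
          by_cases hi1 : i ∈ (F1 : Set ι)
          · rw [Set.indicator_of_mem hi1, Set.indicator_of_mem hi1, hb2,
              Set.piecewise_eq_of_notMem _ _ _ hi]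
          · rw [Set.indicator_of_notMem hi1, Set.indicator_of_notMem hi1]
      have hnew : ∀ k', g k' ((F1 : Set ι).indicator b2) = g k' ((F : Set ι).indicator b) +
          g k' ((F : Set ι)ᶜ.indicator ((F1 : Set ι).indicator b')) := by
        intro k'
        rw [e1 b2 hb2B k', e2, e3]
      refine ⟨insert k S, F1, b2, hb2B, ?_, htail1⟩
      rw [Finset.sum_insert hkS', Finset.sum_congr rfl fun k' _ => hnew k', Finset.sum_add_distrib,
        hnew k]
      have a1 := (abs_le.1 (htail ((F1 : Set ι).indicator b') (h.indicator_mem hb' _))).1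
      have a2 := (abs_le.1 (hk3 b hb)).1
      have a3 := (abs_le.1 (hk3 b' hb')).2
      have a4 := (abs_le.1 (htk b' hb')).2
      have a5 := h.add k b' hb' (F1 : Set ι)
      have a6 := e1 b' hb' k
      push_cast
      linarith
  obtain ⟨r, hr⟩ := exists_nat_gt (C / (η / 2))
  rw [div_lt_iff₀ (by positivity)] at hr
  obtain ⟨S, F, b, hb, hsum, -⟩ := key r
  have := H1 _ (h.indicator_mem hb (F : Set ι)) S
  linarith

end Pool.Agent.Lib.MP_d7d6c7_an
end

section

/-!
# The space
-/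

namespace Pool.Agent.Lib.MP_d7d6c7_an

open Filter Topology Set
open scoped ENNReal

/-- the Hilbert space -/
abbrev Hl := lp (fun _ : ℕ => ℝ) 2

/-- an orthonormal sequence -/
noncomputable def ee (k : ℕ) : Hl := (default : HilbertBasis ℕ ℝ Hl) k

theorem ee_orthonormal : Orthonormal ℝ ee := (default : HilbertBasis ℕ ℝ Hl).orthonormal

/-- indices of the pieces -/
abbrev Om := {j : ℕ → ℕ // Function.Injective j} × ℕ

/-- indices of the generators -/
abbrev La := Om × G

/-- indices of the relations -/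
abbrev Rel := {q : Om × ℕ × (ℕ → G) // ∀ r, q.2.2 r ∈ P q.2.1 r}

/-- the value of a relation -/
noncomputable def relv (h : Hl) (φ : La → ℝ) (q : Rel) : ℝ :=
  ((q.1.1.2 : ℝ) + 1) * ((∑ r ∈ Finset.range (mm q.1.1.2),
    (φ (q.1.1, q.1.2.2 r) - φ (q.1.1, q.1.2.2 (mm q.1.1.2 + r)))) / mm q.1.1.2 -
    inner ℝ (ee (q.1.1.1.1 q.1.2.1)) h)

theorem relv_add (h h' : Hl) (φ φ' : La → ℝ) (q : Rel) :
    relv (h + h') (φ + φ') q = relv h φ q + relv h' φ' q := by
  unfold relv
  have e : ∑ r ∈ Finset.range (mm q.1.1.2),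
      ((φ + φ') (q.1.1, q.1.2.2 r) - (φ + φ') (q.1.1, q.1.2.2 (mm q.1.1.2 + r))) =
      ∑ r ∈ Finset.range (mm q.1.1.2),
        (φ (q.1.1, q.1.2.2 r) - φ (q.1.1, q.1.2.2 (mm q.1.1.2 + r))) +
      ∑ r ∈ Finset.range (mm q.1.1.2),
        (φ' (q.1.1, q.1.2.2 r) - φ' (q.1.1, q.1.2.2 (mm q.1.1.2 + r))) := by
    rw [← Finset.sum_add_distrib]
    refine Finset.sum_congr rfl fun r _ => ?_
    simp only [Pi.add_apply]; ring
  rw [e, inner_add_right]
  ring

theorem relv_smul (c : ℝ) (h : Hl) (φ : La → ℝ) (q : Rel) :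
    relv (c • h) (c • φ) q = c * relv h φ q := by
  unfold relv
  have e : ∑ r ∈ Finset.range (mm q.1.1.2),
      ((c • φ) (q.1.1, q.1.2.2 r) - (c • φ) (q.1.1, q.1.2.2 (mm q.1.1.2 + r))) =
      c * ∑ r ∈ Finset.range (mm q.1.1.2),
        (φ (q.1.1, q.1.2.2 r) - φ (q.1.1, q.1.2.2 (mm q.1.1.2 + r))) := by
    rw [Finset.mul_sum]
    refine Finset.sum_congr rfl fun r _ => ?_
    simp only [Pi.smul_apply, smul_eq_mul]; ring
  rw [e, inner_smul_right]
  ring

/-- the ambient space -/
abbrev Amb := Hl × lp (fun _ : La => ℝ) ∞ × lp (fun _ : Rel => ℝ) ∞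

/-- the dual space as a submodule -/
noncomputable def Vs : Submodule ℝ Amb where
  carrier := {p | ∀ q, p.2.2 q = relv p.1 (p.2.1 : La → ℝ) q}
  add_mem' := by
    intro p p' hp hp' q
    have := relv_add p.1 p'.1 (p.2.1 : La → ℝ) (p'.2.1 : La → ℝ) q
    show (p.2.2 + p'.2.2 : lp (fun _ : Rel => ℝ) ∞) q = relv (p.1 + p'.1) ((p.2.1 + p'.2.1 :
      lp (fun _ : La => ℝ) ∞) : La → ℝ) q
    rw [lp.coeFn_add, lp.coeFn_add, this, Pi.add_apply, hp q, hp' q]
  zero_mem' := by
    intro q
    have := relv_smul 0 0 0 q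
    rw [zero_mul, zero_smul, zero_smul] at this
    show (0 : lp (fun _ : Rel => ℝ) ∞) q = relv 0 ((0 : lp (fun _ : La => ℝ) ∞) : La → ℝ) q
    rw [lp.coeFn_zero, lp.coeFn_zero, this, Pi.zero_apply]
  smul_mem' := by
    intro c p hp q
    have := relv_smul c p.1 (p.2.1 : La → ℝ) q
    show (c • p.2.2 : lp (fun _ : Rel => ℝ) ∞) q = relv (c • p.1) ((c • p.2.1 :
      lp (fun _ : La => ℝ) ∞) : La → ℝ) q
    rw [lp.coeFn_smul, lp.coeFn_smul, this, Pi.smul_apply, hp q, smul_eq_mul]

/-- the dual space -/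
def V : Type := Vs

noncomputable instance : NormedAddCommGroup V := inferInstanceAs (NormedAddCommGroup Vs)
noncomputable instance : NormedSpace ℝ V := inferInstanceAs (NormedSpace ℝ Vs)

/-- the underlying element of the ambient space -/
def va (p : V) : Amb := Subtype.val (show Vs from p)

theorem va_add (p p' : V) : va (p + p') = va p + va p' := rfl
theorem va_sub (p p' : V) : va (p - p') = va p - va p' := rfl
theorem va_neg (p : V) : va (-p) = -va p := rfl
theorem va_smul (c : ℝ) (p : V) : va (c • p) = c • va p := rfl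
theorem va_zero : va 0 = 0 := rfl
theorem norm_va (p : V) : ‖va p‖ = ‖p‖ := rfl
theorem va_spec (p : V) (q : Rel) : (va p).2.2 q = relv (va p).1 ((va p).2.1 : La → ℝ) q :=
  Subtype.prop (show Vs from p) q

/-- the vector part -/
noncomputable def hh (p : V) : Hl := (va p).1

/-- the function part -/
noncomputable def ph (p : V) : La → ℝ := ((va p).2.1 : La → ℝ)

theorem hh_add (p p' : V) : hh (p + p') = hh p + hh p' := rfl
theorem hh_sub (p p' : V) : hh (p - p') = hh p - hh p' := rfl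
theorem hh_neg (p : V) : hh (-p) = -hh p := rfl
theorem hh_smul (c : ℝ) (p : V) : hh (c • p) = c • hh p := rfl
theorem hh_zero : hh 0 = 0 := rfl
theorem ph_add (p p' : V) : ph (p + p') = ph p + ph p' := lp.coeFn_add _ _
theorem ph_sub (p p' : V) : ph (p - p') = ph p - ph p' := lp.coeFn_sub _ _
theorem ph_neg (p : V) : ph (-p) = -ph p := lp.coeFn_neg _
theorem ph_smul (c : ℝ) (p : V) : ph (c • p) = c • ph p := lp.coeFn_smul _ _
theorem ph_zero : ph 0 = 0 := lp.coeFn_zero _ _

theorem V_ext {p p' : V} (h1 : hh p = hh p') (h2 : ph p = ph p') : p = p' := by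
  have h3 : va p = va p' := by
    refine Prod.ext h1 (Prod.ext (lp.ext h2) (lp.ext ?_))
    funext q
    rw [va_spec p q, va_spec p' q]
    show relv (hh p) (ph p) q = relv (hh p') (ph p') q
    rw [h1, h2]
  exact Subtype.ext h3

theorem norm_hh_le (p : V) : ‖hh p‖ ≤ ‖p‖ := norm_fst_le (va p)

theorem abs_ph_le (p : V) (l : La) : |ph p l| ≤ ‖p‖ :=
  (lp.norm_apply_le_norm (by simp) (va p).2.1 l).trans
    ((norm_fst_le (va p).2).trans (norm_snd_le (va p)))

theorem abs_relv_le (p : V) (q : Rel) : |relv (hh p) (ph p) q| ≤ ‖p‖ := by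
  have h := va_spec p q
  have h1 := lp.norm_apply_le_norm (by simp) (va p).2.2 q
  rw [h] at h1
  exact h1.trans ((norm_snd_le (va p).2).trans (norm_snd_le (va p)))

/-- the constructor, in the ambient space -/
noncomputable def mkA (h : Hl) (φ : La → ℝ) (R : ℝ) (hφ : ∀ l, |φ l| ≤ R)
    (hr : ∀ q, |relv h φ q| ≤ R) : Amb :=
  (h, ⟨φ, memℓp_infty ⟨R, by rintro _ ⟨l, rfl⟩; exact hφ l⟩⟩,
    ⟨relv h φ, memℓp_infty ⟨R, by rintro _ ⟨l, rfl⟩; exact hr l⟩⟩)

theorem norm_mkA_le (h : Hl) (φ : La → ℝ) (R : ℝ) (hR : 0 ≤ R) (hh' : ‖h‖ ≤ R)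
    (hφ : ∀ l, |φ l| ≤ R) (hr : ∀ q, |relv h φ q| ≤ R) : ‖mkA h φ R hφ hr‖ ≤ R := by
  refine (norm_prod_le_iff).2 ⟨hh', (norm_prod_le_iff).2 ⟨?_, ?_⟩⟩
  · exact lp.norm_le_of_forall_le hR hφ
  · exact lp.norm_le_of_forall_le hR hr

/-- existence form of the constructor -/
theorem exists_V (h : Hl) (φ : La → ℝ) {R : ℝ} (hR : 0 ≤ R) (hh' : ‖h‖ ≤ R)
    (hφ : ∀ l, |φ l| ≤ R) (hr : ∀ q, |relv h φ q| ≤ R) :
    ∃ p : V, hh p = h ∧ ph p = φ ∧ ‖p‖ ≤ R :=
  ⟨(⟨mkA h φ R hφ hr, fun _ => rfl⟩ : Vs), rfl, rfl, norm_mkA_le h φ R hR hh' hφ hr⟩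

/-- first kind of generators -/
noncomputable def Eg (k : ℕ) : V →L[ℝ] ℝ :=
  LinearMap.mkContinuous
    { toFun := fun p => inner ℝ (ee k) (hh p)
      map_add' := fun p p' => by rw [hh_add, inner_add_right]
      map_smul' := fun c p => by rw [hh_smul, inner_smul_right]; rfl } 1
    (fun p => by
      rw [one_mul]
      show ‖inner ℝ (ee k) (hh p)‖ ≤ ‖p‖
      refine (norm_inner_le_norm _ _).trans ?_
      rw [ee_orthonormal.1, one_mul]
      exact norm_hh_le p)

/-- second kind of generators -/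
noncomputable def Yg (l : La) : V →L[ℝ] ℝ :=
  LinearMap.mkContinuous
    { toFun := fun p => ph p l
      map_add' := fun p p' => by rw [ph_add]; rfl
      map_smul' := fun c p => by rw [ph_smul]; rfl } 1
    (fun p => by
      rw [one_mul]
      exact abs_ph_le p l)

theorem Eg_apply (k : ℕ) (p : V) : Eg k p = inner ℝ (ee k) (hh p) := rfl
theorem Yg_apply (l : La) (p : V) : Yg l p = ph p l := rfl

/-- the Banach space, as a submodule -/
noncomputable def Xs : Submodule ℝ (V →L[ℝ] ℝ) :=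
  (Submodule.span ℝ (Set.range Eg ∪ Set.range Yg)).topologicalClosure

theorem Eg_mem (k : ℕ) : Eg k ∈ Xs :=
  Submodule.le_topologicalClosure _ (Submodule.subset_span (Or.inl ⟨k, rfl⟩))

theorem Yg_mem (l : La) : Yg l ∈ Xs :=
  Submodule.le_topologicalClosure _ (Submodule.subset_span (Or.inr ⟨l, rfl⟩))

instance : CompleteSpace Xs := by
  have h : IsClosed ((Xs : Submodule ℝ (V →L[ℝ] ℝ)) : Set (V →L[ℝ] ℝ)) :=
    Submodule.isClosed_topologicalClosure _
  exact h.completeSpace_coe

theorem tail_span {z : V →L[ℝ] ℝ} (hz : z ∈ Submodule.span ℝ (Set.range Eg ∪ Set.range Yg)) :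
    ∃ F : Finset La, ∀ p : V, hh p = 0 → (∀ l ∈ F, ph p l = 0) → z p = 0 := by
  classical
  induction hz using Submodule.span_induction with
  | mem x hx =>
    rcases hx with ⟨k, rfl⟩ | ⟨l, rfl⟩
    · exact ⟨∅, fun p hp _ => by rw [Eg_apply, hp, inner_zero_right]⟩
    · exact ⟨{l}, fun p _ hp => by rw [Yg_apply]; exact hp l (Finset.mem_singleton_self l)⟩
  | zero => exact ⟨∅, fun p _ _ => rfl⟩
  | add x y _ _ hx hy =>
    obtain ⟨F1, h1⟩ := hx
    obtain ⟨F2, h2⟩ := hy
    refine ⟨F1 ∪ F2, fun p hp hl => ?_⟩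
    rw [add_apply, h1 p hp fun l hl1 => hl l (Finset.mem_union_left _ hl1),
      h2 p hp fun l hl1 => hl l (Finset.mem_union_right _ hl1), add_zero]
  | smul c x _ hx =>
    obtain ⟨F1, h1⟩ := hx
    refine ⟨F1, fun p hp hl => ?_⟩
    rw [smul_apply, h1 p hp hl, smul_zero]

theorem tail {z : V →L[ℝ] ℝ} (hz : z ∈ Xs) {η : ℝ} (hη : 0 < η) :
    ∃ F : Finset La, ∀ p : V, hh p = 0 → (∀ l ∈ F, ph p l = 0) → |z p| ≤ η * ‖p‖ := by
  have h1 : z ∈ closure ((Submodule.span ℝ (Set.range Eg ∪ Set.range Yg) :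
      Submodule ℝ (V →L[ℝ] ℝ)) : Set (V →L[ℝ] ℝ)) := hz
  obtain ⟨z', hz', hd⟩ := Metric.mem_closure_iff.1 h1 η hη
  obtain ⟨F, hF⟩ := tail_span hz'
  refine ⟨F, fun p hp hl => ?_⟩
  have h2 : z p = (z - z') p := by
    rw [sub_apply, hF p hp hl, sub_zero]
  rw [h2, ← Real.norm_eq_abs]
  refine ((z - z').le_opNorm p).trans (mul_le_mul_of_nonneg_right ?_ (norm_nonneg _))
  rw [← dist_eq_norm]
  exact hd.le

end Pool.Agent.Lib.MP_d7d6c7_an
end

section

/-!
# The space contains no copy of `c₀`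
-/

namespace Pool.Agent.Lib.MP_d7d6c7_an

open Filter Topology Set

open Classical in
/-- the element with vanishing vector part and given function part -/
noncomputable def elt (φ : La → ℝ) : V := if h : ∃ p : V, hh p = 0 ∧ ph p = φ then h.choose else 0

theorem elt_eq {φ : La → ℝ} {p : V} (h1 : hh p = 0) (h2 : ph p = φ) : elt φ = p := by
  have h : ∃ p : V, hh p = 0 ∧ ph p = φ := ⟨p, h1, h2⟩
  rw [elt, dif_pos h]
  exact V_ext (h.choose_spec.1.trans h1.symm) (h.choose_spec.2.trans h2.symm)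

/-- admissible functions -/
def Good (φ : La → ℝ) : Prop := (∀ l, |φ l| ≤ 1) ∧ ∀ q, |relv 0 φ q| ≤ 1

theorem Good.exists_elt {φ : La → ℝ} (h : Good φ) : hh (elt φ) = 0 ∧ ph (elt φ) = φ ∧
    ‖elt φ‖ ≤ 1 := by
  obtain ⟨p, h1, h2, h3⟩ := exists_V 0 φ zero_le_one (by simp) h.1 h.2
  rw [elt_eq h1 h2]
  exact ⟨h1, h2, h3⟩

/-- bounded sequences of signed sums -/
def WUC (z : ℕ → (V →L[ℝ] ℝ)) (C : ℝ) : Prop :=
  ∀ (S : Finset ℕ) (θ : ℕ → ℝ), (∀ k, |θ k| ≤ 1) → ‖∑ k ∈ S, θ k • z k‖ ≤ C

theorem WUC.apply {z : ℕ → (V →L[ℝ] ℝ)} {C : ℝ} (h : WUC z C) (S : Finset ℕ) (θ : ℕ → ℝ)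
    (hθ : ∀ k, |θ k| ≤ 1) (p : V) : |∑ k ∈ S, θ k * z k p| ≤ C * ‖p‖ := by
  have h1 : ∑ k ∈ S, θ k * z k p = (∑ k ∈ S, θ k • z k) p := by
    rw [sum_apply]
    rfl
  rw [h1]
  exact (ContinuousLinearMap.le_opNorm _ p).trans (mul_le_mul_of_nonneg_right (h S θ hθ)
    (norm_nonneg _))

theorem WUC.nonneg {z : ℕ → (V →L[ℝ] ℝ)} {C : ℝ} (h : WUC z C) : 0 ≤ C := by
  have := h ∅ (fun _ => 0) (by simp)
  simpa using this

theorem WUC.sum_le {z : ℕ → (V →L[ℝ] ℝ)} {C : ℝ} (h : WUC z C) (S : Finset ℕ) {p : V}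
    (hp : ‖p‖ ≤ 1) : ∑ k ∈ S, z k p ≤ C := by
  have h1 := h.apply S (fun _ => 1) (by simp) p
  simp only [one_mul] at h1
  exact (le_abs_self _).trans (h1.trans (mul_le_of_le_one_right h.nonneg hp))

theorem WUC.tendsto {z : ℕ → (V →L[ℝ] ℝ)} {C : ℝ} (h : WUC z C) (p : V) :
    Tendsto (fun k => z k p) atTop (𝓝 0) := by
  have h1 : Summable fun k => |z k p| := by
    refine summable_of_sum_le (c := C * ‖p‖) (fun k => abs_nonneg _) fun S => ?_
    have h2 := h.apply S (fun k => SignType.sign (z k p)) (fun k => by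
      rcases lt_trichotomy (z k p) 0 with h3 | h3 | h3
      · simp [sign_neg h3]
      · simp [h3]
      · simp [sign_pos h3]) p
    have h3 : ∑ k ∈ S, (SignType.sign (z k p) : ℝ) * z k p = ∑ k ∈ S, |z k p| :=
      Finset.sum_congr rfl fun k _ => by rw [sign_mul_self]
    rw [h3] at h2
    exact (le_abs_self _).trans h2
  exact (tendsto_zero_iff_abs_tendsto_zero _).2 h1.tendsto_atTop_zero

/-! ### Level one -/

/-- a function on one piece, scaled -/
noncomputable def one (ω : Om) (ψ : G → ℝ) : La → ℝ := open Classical in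
  fun l => if l.1 = ω then 1 / (2 * ((ω.2 : ℝ) + 1)) * ψ l.2 else 0

theorem one_good (ω : Om) {ψ : G → ℝ} (h : ∀ x, |ψ x| ≤ 1) : Good (one ω ψ) := by
  have hc : (0 : ℝ) < 1 / (2 * ((ω.2 : ℝ) + 1)) := by positivity
  have hc1 : 1 / (2 * ((ω.2 : ℝ) + 1)) ≤ 1 := by
    rw [div_le_one (by positivity)]
    have : (0 : ℝ) ≤ ω.2 := by positivity
    linarith
  have hb : ∀ l, |one ω ψ l| ≤ 1 / (2 * ((ω.2 : ℝ) + 1)) := by
    intro l
    unfold one
    split_ifs
    · rw [abs_mul, abs_of_pos hc]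
      exact mul_le_of_le_one_right hc.le (h _)
    · rw [abs_zero]; exact hc.le
  refine ⟨fun l => (hb l).trans hc1, fun q => ?_⟩
  by_cases hq : q.1.1 = ω
  · unfold relv
    rw [inner_zero_right, sub_zero, abs_mul, hq, abs_of_pos (by positivity : (0 : ℝ) < (ω.2 : ℝ) + 1),
      abs_div, Nat.abs_cast]
    have hm : (0 : ℝ) < mm ω.2 := by exact_mod_cast mm_pos ω.2
    have h1 : |∑ r ∈ Finset.range (mm ω.2), (one ω ψ (ω, q.1.2.2 r) -
        one ω ψ (ω, q.1.2.2 (mm ω.2 + r)))| ≤ mm ω.2 * (1 / ((ω.2 : ℝ) + 1)) := by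
      refine (Finset.abs_sum_le_sum_abs _ _).trans ?_
      refine (Finset.sum_le_card_nsmul _ _ (1 / ((ω.2 : ℝ) + 1)) fun r _ => ?_).trans ?_
      · refine (abs_sub _ _).trans ?_
        have a1 := hb (ω, q.1.2.2 r)
        have a2 := hb (ω, q.1.2.2 (mm ω.2 + r))
        have a3 : 1 / ((ω.2 : ℝ) + 1) = 1 / (2 * ((ω.2 : ℝ) + 1)) + 1 / (2 * ((ω.2 : ℝ) + 1)) := by
          field_simp; norm_num
        rw [a3]
        exact add_le_add a1 a2
      · rw [Finset.card_range, nsmul_eq_mul]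
    have h2 : |∑ r ∈ Finset.range (mm ω.2), (one ω ψ (ω, q.1.2.2 r) -
        one ω ψ (ω, q.1.2.2 (mm ω.2 + r)))| / mm ω.2 ≤ 1 / ((ω.2 : ℝ) + 1) := by
      rw [div_le_iff₀ hm, mul_comm]; exact h1
    calc ((ω.2 : ℝ) + 1) * _ ≤ ((ω.2 : ℝ) + 1) * (1 / ((ω.2 : ℝ) + 1)) :=
          mul_le_mul_of_nonneg_left h2 (by positivity)
      _ = 1 := by field_simp
  · have h0 : ∀ x, one ω ψ (q.1.1, x) = 0 := fun x => by
      unfold one; rw [if_neg hq]
    unfold relv
    simp only [h0, sub_zero, Finset.sum_const_zero, zero_div, inner_zero_right, mul_zero, abs_zero]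
    norm_num

theorem one_add (ω : Om) (ψ ψ' : G → ℝ) : one ω (ψ + ψ') = one ω ψ + one ω ψ' := by
  funext l
  simp only [one, Pi.add_apply]
  split_ifs <;> ring

theorem one_smul' (ω : Om) (c : ℝ) (ψ : G → ℝ) : one ω (c • ψ) = c • one ω ψ := by
  funext l
  simp only [one, Pi.smul_apply, smul_eq_mul]
  split_ifs <;> ring

theorem abs_indicator_le {ψ : G → ℝ} (h : ∀ x, |ψ x| ≤ 1) (F : Set G) (x : G) :
    |F.indicator ψ x| ≤ 1 := by
  by_cases hx : x ∈ F
  · rw [Set.indicator_of_mem hx]; exact h x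
  · rw [Set.indicator_of_notMem hx]; simp

theorem hump_one (z : ℕ → (V →L[ℝ] ℝ)) (ω : Om) :
    Hump {ψ : G → ℝ | ∀ x, |ψ x| ≤ 1} (fun k ψ => z k (elt (one ω ψ))) where
  mix := by
    intro b hb b' hb' F x
    classical
    by_cases hx : x ∈ F
    · rw [Set.piecewise_eq_of_mem _ _ _ hx]; exact hb x
    · rw [Set.piecewise_eq_of_notMem _ _ _ hx]; exact hb' x
  zero_mem := by intro x; simp
  neg_mem := by intro b hb x; rw [Pi.neg_apply, abs_neg]; exact hb x
  neg := by
    intro k b hb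
    obtain ⟨h1, h2, -⟩ := (one_good ω hb).exists_elt
    have e : elt (one ω (-b)) = -elt (one ω b) := by
      refine elt_eq ?_ ?_
      · rw [hh_neg, h1, neg_zero]
      · rw [ph_neg, h2]
        have := one_smul' ω (-1) b
        rw [neg_one_smul, neg_one_smul] at this
        exact this.symm
    simp only [e, map_neg]
  add := by
    intro k b hb F
    obtain ⟨h1, h2, -⟩ := (one_good ω (abs_indicator_le hb F)).exists_elt
    obtain ⟨h3, h4, -⟩ := (one_good ω (abs_indicator_le hb Fᶜ)).exists_elt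
    have e : elt (one ω b) = elt (one ω (F.indicator b)) + elt (one ω (Fᶜ.indicator b)) := by
      refine elt_eq ?_ ?_
      · rw [hh_add, h1, h3, add_zero]
      · rw [ph_add, h2, h4, ← one_add, Set.indicator_self_add_compl]
    simp only [e, map_add]

theorem level_one {z : ℕ → (V →L[ℝ] ℝ)} (hz : ∀ k, z k ∈ Xs) {C : ℝ} (hW : WUC z C) (ω : Om)
    {η : ℝ} (hη : 0 < η) :
    ∀ᶠ k in atTop, ∀ ψ : G → ℝ, (∀ x, |ψ x| ≤ 1) → |z k (elt (one ω ψ))| ≤ η := by
  classical
  refine gliding (hump_one z ω) (C := C) ?_ ?_ ?_ hη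
  · intro b hb S
    exact hW.sum_le S (one_good ω hb).exists_elt.2.2
  · intro k η hη
    obtain ⟨F, hF⟩ := tail (hz k) hη
    refine ⟨F.image Prod.snd, fun b hb => ?_⟩
    obtain ⟨h1, h2, h3⟩ := (one_good ω (abs_indicator_le hb
      ((F.image Prod.snd : Finset G) : Set G)ᶜ)).exists_elt
    refine (hF _ h1 fun l hl => ?_).trans (mul_le_of_le_one_right hη.le h3)
    rw [h2]
    unfold one
    split_ifs
    · rw [Set.indicator_of_notMem, mul_zero]
      rw [Set.mem_compl_iff, not_not, Finset.mem_coe]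
      exact Finset.mem_image_of_mem _ hl
    · rfl
  · intro F η hη
    have h1 : ∀ x : G, ∀ᶠ k in atTop, |z k (elt (one ω (Set.indicator {x} 1)))| ≤ η / (F.card + 1) := by
      intro x
      have := (tendsto_zero_iff_abs_tendsto_zero _).1 (hW.tendsto (elt (one ω (Set.indicator {x} 1))))
      exact ((tendsto_order.1 this).2 _ (by positivity)).mono fun k hk => hk.le
    have h2 : ∀ᶠ k in atTop, ∀ x ∈ F, |z k (elt (one ω (Set.indicator {x} 1)))| ≤ η / (F.card + 1) :=
      (Filter.eventually_all_finset F).2 fun x _ => h1 x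
    filter_upwards [h2] with k hk b hb
    have hx1 : ∀ x : G, ∀ y, |(Set.indicator ({x} : Set G) (1 : G → ℝ)) y| ≤ 1 := fun x =>
      abs_indicator_le (fun _ => by simp) _
    have e : elt (one ω ((F : Set G).indicator b)) =
        ∑ x ∈ F, b x • elt (one ω (Set.indicator {x} 1)) := by
      refine elt_eq ?_ ?_
      · have : ∀ S : Finset G, hh (∑ x ∈ S, b x • elt (one ω (Set.indicator {x} 1))) = 0 := by
          intro S
          induction S using Finset.induction_on with
          | empty => rw [Finset.sum_empty, hh_zero]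
          | insert a S ha ih =>
            rw [Finset.sum_insert ha, hh_add, ih, hh_smul, (one_good ω (hx1 a)).exists_elt.1,
              smul_zero, zero_add]
        exact this F
      · have : ∀ S : Finset G, ph (∑ x ∈ S, b x • elt (one ω (Set.indicator {x} 1))) =
            one ω ((S : Set G).indicator b) := by
          intro S
          induction S using Finset.induction_on with
          | empty =>
            rw [Finset.sum_empty, ph_zero]
            funext l
            simp [one]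
          | insert a S ha ih =>
            rw [Finset.sum_insert ha, ph_add, ih, ph_smul, (one_good ω (hx1 a)).exists_elt.2.1,
              ← one_smul', ← one_add]
            congr 1
            funext y
            rw [Pi.add_apply, Pi.smul_apply, smul_eq_mul]
            by_cases hy : y = a
            · subst hy
              rw [Set.indicator_of_mem (by simp), Set.indicator_of_notMem (by simpa using ha),
                Set.indicator_of_mem (by simp)]
              simp
            · rw [Set.indicator_of_notMem (s := {a}) (by simpa using hy)]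
              by_cases hyS : y ∈ S
              · rw [Set.indicator_of_mem (by simpa using hyS), Set.indicator_of_mem (by simp [hyS])]
                simp
              · rw [Set.indicator_of_notMem (by simpa using hyS),
                  Set.indicator_of_notMem (by simp [hyS, hy])]
                simp
        exact this F
    simp only [e, map_sum, map_smul, smul_eq_mul]
    refine (Finset.abs_sum_le_sum_abs _ _).trans ?_
    refine (Finset.sum_le_card_nsmul _ _ (η / (F.card + 1)) fun x hx => ?_).trans ?_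
    · rw [abs_mul]
      exact (mul_le_of_le_one_left (abs_nonneg _) (hb x)).trans (hk x hx)
    · rw [nsmul_eq_mul, mul_div_assoc', div_le_iff₀ (by positivity)]
      nlinarith

end Pool.Agent.Lib.MP_d7d6c7_an
end

section

/-!
# Second gliding hump and the averaging argument
-/

namespace Pool.Agent.Lib.MP_d7d6c7_an

open Filter Topology Set

/-- uncurried form -/
def unc (b : Om → G → ℝ) : La → ℝ := fun l => b l.1 l.2

theorem relv_local {φ φ' : La → ℝ} {q : Rel} (h : ∀ x, φ (q.1.1, x) = φ' (q.1.1, x)) :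
    relv 0 φ q = relv 0 φ' q := by
  unfold relv
  simp only [h]

theorem good_mix {b b' : Om → G → ℝ} (hb : Good (unc b)) (hb' : Good (unc b')) (F : Set Om) :
    Good (unc (open Classical in F.piecewise b b')) := by
  classical
  refine ⟨fun l => ?_, fun q => ?_⟩
  · unfold unc
    by_cases hl : l.1 ∈ F
    · rw [Set.piecewise_eq_of_mem _ _ _ hl]; exact hb.1 l
    · rw [Set.piecewise_eq_of_notMem _ _ _ hl]; exact hb'.1 l
  · by_cases hq : q.1.1 ∈ F
    · rw [relv_local (φ' := unc b) fun x => by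
        unfold unc
        rw [Set.piecewise_eq_of_mem _ _ _ hq]]
      exact hb.2 q
    · rw [relv_local (φ' := unc b') fun x => by
        unfold unc
        rw [Set.piecewise_eq_of_notMem _ _ _ hq]]
      exact hb'.2 q

theorem good_zero : Good (unc 0) := by
  refine ⟨fun l => by simp [unc], fun q => ?_⟩
  have : unc 0 = 0 := rfl
  have h := relv_smul 0 0 0 q
  rw [zero_mul, zero_smul, zero_smul] at h
  rw [this, h]
  simp

theorem good_neg {b : Om → G → ℝ} (hb : Good (unc b)) : Good (unc (-b)) := by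
  have e : unc (-b) = (-1 : ℝ) • unc b := by
    funext l; simp [unc]
  refine ⟨fun l => ?_, fun q => ?_⟩
  · rw [e, Pi.smul_apply, smul_eq_mul, neg_one_mul, abs_neg]; exact hb.1 l
  · have h := relv_smul (-1) 0 (unc b) q
    rw [smul_zero] at h
    rw [e, h, neg_one_mul, abs_neg]
    exact hb.2 q

theorem unc_add (b b' : Om → G → ℝ) : unc (b + b') = unc b + unc b' := rfl

theorem good_indicator {b : Om → G → ℝ} (hb : Good (unc b)) (F : Set Om) :
    Good (unc (F.indicator b)) := by
  classical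
  have := good_mix hb good_zero F
  have e : F.indicator b = F.piecewise b 0 := by
    ext i
    by_cases hi : i ∈ F <;> simp [hi]
  rw [e]
  convert this

theorem hump_two (z : ℕ → (V →L[ℝ] ℝ)) :
    Hump {b : Om → G → ℝ | Good (unc b)} (fun k b => z k (elt (unc b))) where
  mix := fun b hb b' hb' F => good_mix hb hb' F
  zero_mem := good_zero
  neg_mem := fun b hb => good_neg hb
  neg := by
    intro k b hb
    have hb' : Good (unc b) := hb
    obtain ⟨h1, h2, -⟩ := hb'.exists_elt
    have e : elt (unc (-b)) = -elt (unc b) := by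
      refine elt_eq ?_ ?_
      · rw [hh_neg, h1, neg_zero]
      · rw [ph_neg, h2]; rfl
    simp only [e, map_neg]
  add := by
    intro k b hb F
    have hb' : Good (unc b) := hb
    obtain ⟨h1, h2, -⟩ := (good_indicator hb' F).exists_elt
    obtain ⟨h3, h4, -⟩ := (good_indicator hb' Fᶜ).exists_elt
    have e : elt (unc b) = elt (unc (F.indicator b)) + elt (unc (Fᶜ.indicator b)) := by
      refine elt_eq ?_ ?_
      · rw [hh_add, h1, h3, add_zero]
      · rw [ph_add, h2, h4, ← unc_add, Set.indicator_self_add_compl]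
    simp only [e, map_add]

/-- the part of an admissible function on one piece -/
theorem elt_single {b : Om → G → ℝ} (hb : Good (unc b)) (ω : Om) :
    elt (unc (Set.indicator {ω} b)) = (2 * ((ω.2 : ℝ) + 1)) • elt (one ω (b ω)) := by
  have hω : ∀ x, |b ω x| ≤ 1 := fun x => hb.1 (ω, x)
  obtain ⟨h1, h2, -⟩ := (one_good ω hω).exists_elt
  refine elt_eq ?_ ?_
  · rw [hh_smul, h1, smul_zero]
  · rw [ph_smul, h2]
    funext l
    rw [Pi.smul_apply, smul_eq_mul]
    unfold one unc
    by_cases hl : l.1 = ω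
    · rw [if_pos hl, Set.indicator_of_mem (by simpa using hl), hl]
      have : (0 : ℝ) < 2 * ((ω.2 : ℝ) + 1) := by positivity
      field_simp
    · rw [if_neg hl, Set.indicator_of_notMem (by simpa using hl), mul_zero]
      rfl

theorem level_two {z : ℕ → (V →L[ℝ] ℝ)} (hz : ∀ k, z k ∈ Xs) {C : ℝ} (hW : WUC z C)
    {η : ℝ} (hη : 0 < η) :
    ∀ᶠ k in atTop, ∀ b : Om → G → ℝ, Good (unc b) → |z k (elt (unc b))| ≤ η := by
  classical
  refine gliding (hump_two z) (C := C) ?_ ?_ ?_ hη
  · intro b hb S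
    have hb' : Good (unc b) := hb
    exact hW.sum_le S hb'.exists_elt.2.2
  · intro k η hη
    obtain ⟨F, hF⟩ := tail (hz k) hη
    refine ⟨F.image Prod.fst, fun b hb => ?_⟩
    obtain ⟨h1, h2, h3⟩ := (good_indicator hb
      ((F.image Prod.fst : Finset Om) : Set Om)ᶜ).exists_elt
    refine (hF _ h1 fun l hl => ?_).trans (mul_le_of_le_one_right hη.le h3)
    rw [h2]
    unfold unc
    rw [Set.indicator_of_notMem]
    · rfl
    · rw [Set.mem_compl_iff, not_not, Finset.mem_coe]
      exact Finset.mem_image_of_mem _ hl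
  · intro F η hη
    have h1 : ∀ ω : Om, ∀ᶠ k in atTop, ∀ b : Om → G → ℝ, Good (unc b) →
        |z k (elt (unc (Set.indicator {ω} b)))| ≤ η / (F.card + 1) := by
      intro ω
      have hc : (0 : ℝ) < 2 * ((ω.2 : ℝ) + 1) := by positivity
      filter_upwards [level_one hz hW ω
        (η := η / (F.card + 1) / (2 * ((ω.2 : ℝ) + 1))) (by positivity)] with k hk b hb
      rw [elt_single hb, map_smul, smul_eq_mul, abs_mul, abs_of_pos hc]
      have := hk (b ω) fun x => hb.1 (ω, x)
      rw [le_div_iff₀ hc, mul_comm] at this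
      exact this
    have h2 := (Filter.eventually_all_finset F).2 fun ω (_ : ω ∈ F) => h1 ω
    filter_upwards [h2] with k hk b hb
    have hb' : Good (unc b) := hb
    have e : elt (unc ((F : Set Om).indicator b)) = ∑ ω ∈ F, elt (unc (Set.indicator {ω} b)) := by
      have hs : ∀ ω, hh (elt (unc (Set.indicator {ω} b))) = 0 ∧
          ph (elt (unc (Set.indicator {ω} b))) = unc (Set.indicator {ω} b) := fun ω =>
        ⟨(good_indicator hb' {ω}).exists_elt.1, (good_indicator hb' {ω}).exists_elt.2.1⟩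
      have key : ∀ S : Finset Om, hh (∑ ω ∈ S, elt (unc (Set.indicator {ω} b))) = 0 ∧
          ph (∑ ω ∈ S, elt (unc (Set.indicator {ω} b))) = unc ((S : Set Om).indicator b) := by
        intro S
        induction S using Finset.induction_on with
        | empty =>
          rw [Finset.sum_empty, hh_zero, ph_zero]
          refine ⟨rfl, ?_⟩
          funext l
          simp [unc]
        | insert a S ha ih =>
          rw [Finset.sum_insert ha, hh_add, ph_add, ih.1, ih.2, (hs a).1, (hs a).2, add_zero,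
            ← unc_add]
          refine ⟨rfl, ?_⟩
          congr 1
          funext y
          rw [Pi.add_apply]
          by_cases hy : y = a
          · subst hy
            rw [Set.indicator_of_mem (by simp), Set.indicator_of_notMem (by simpa using ha),
              Set.indicator_of_mem (by simp), add_zero]
          · rw [Set.indicator_of_notMem (s := {a}) (by simpa using hy)]
            by_cases hyS : y ∈ S
            · rw [Set.indicator_of_mem (by simpa using hyS), Set.indicator_of_mem (by simp [hyS]),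
                zero_add]
            · rw [Set.indicator_of_notMem (by simpa using hyS),
                Set.indicator_of_notMem (by simp [hyS, hy]), zero_add]
      exact elt_eq (key F).1 (key F).2
    simp only [e, map_sum]
    refine (Finset.abs_sum_le_sum_abs _ _).trans ?_
    refine (Finset.sum_le_card_nsmul _ _ (η / (F.card + 1)) fun ω hω => hk ω hω b hb').trans ?_
    rw [nsmul_eq_mul, mul_div_assoc', div_le_iff₀ (by positivity)]
    nlinarith

theorem vertical_small {z : ℕ → (V →L[ℝ] ℝ)} (hz : ∀ k, z k ∈ Xs) {C : ℝ} (hW : WUC z C)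
    {η : ℝ} (hη : 0 < η) : ∀ᶠ k in atTop, ∀ p : V, hh p = 0 → |z k p| ≤ η * ‖p‖ := by
  filter_upwards [level_two hz hW hη] with k hk p hp
  by_cases h0 : ‖p‖ = 0
  · rw [norm_eq_zero] at h0
    rw [h0, map_zero, norm_zero, abs_zero, mul_zero]
  · have hpos : 0 < ‖p‖ := lt_of_le_of_ne (norm_nonneg _) (Ne.symm h0)
    set p' : V := ‖p‖⁻¹ • p with hp'
    have hn : ‖p'‖ ≤ 1 := by
      rw [hp', norm_smul, norm_inv, norm_norm, inv_mul_cancel₀ hpos.ne']
    have hh0 : hh p' = 0 := by rw [hp', hh_smul, hp, smul_zero]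
    have hgood : Good (unc fun ω x => ph p' (ω, x)) := by
      refine ⟨fun l => (abs_ph_le p' l).trans hn, fun q => ?_⟩
      have := (abs_relv_le p' q).trans hn
      rw [hh0] at this
      exact this
    have h1 := hk _ hgood
    have h2 : elt (unc fun ω x => ph p' (ω, x)) = p' := elt_eq hh0 rfl
    rw [h2] at h1
    have h3 : z k p = ‖p‖ * z k p' := by
      rw [hp', map_smul, smul_eq_mul, mul_inv_cancel_left₀ hpos.ne']
    rw [h3, abs_mul, abs_of_pos hpos, mul_comm]
    exact mul_le_mul_of_nonneg_right h1 hpos.le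

/-- extension of vectors -/
theorem exists_lift (h : Hl) : ∃ p : V, hh p = h ∧ ‖p‖ ≤ 2 * ‖h‖ := by
  by_cases h0 : h = 0
  · exact ⟨0, by rw [hh_zero, h0], by simp [h0]⟩
  have hpos : 0 < ‖h‖ := norm_pos_iff.2 h0
  set u : Hl := ‖h‖⁻¹ • h with hu
  have hu1 : ‖u‖ ≤ 1 := by
    rw [hu, norm_smul, norm_inv, norm_norm, inv_mul_cancel₀ hpos.ne']
  choose φ hφ1 hφ2 using fun ω : Om => exists_ext ee_orthonormal ω.1.2 ω.2 hu1
  obtain ⟨p, h1, h2, h3⟩ := exists_V u (unc φ) (R := 2) (by norm_num) (by linarith)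
    (fun l => (hφ1 l.1 l.2).trans (by norm_num)) (fun q => by
      have h4 := hφ2 q.1.1 q.1.2.1 q.1.2.2 q.2
      have hn : (0 : ℝ) < (q.1.1.2 : ℝ) + 1 := by positivity
      unfold relv
      rw [abs_mul, abs_of_pos hn]
      have h5 : ((q.1.1.2 : ℝ) + 1) * (2 / ((q.1.1.2 : ℝ) + 1)) = 2 := by field_simp
      rw [← h5]
      exact mul_le_mul_of_nonneg_left h4 hn.le)
  refine ⟨‖h‖ • p, ?_, ?_⟩
  · rw [hh_smul, h1, hu, smul_smul, mul_inv_cancel₀ hpos.ne', one_smul]
  · rw [norm_smul, norm_norm, mul_comm]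
    exact mul_le_mul_of_nonneg_right h3 hpos.le

/-- choice of signs -/
theorem exists_signs (M : ℕ → ℕ → ℝ) (K : ℕ) : ∃ θ : ℕ → ℝ, (∀ k, θ k = 1 ∨ θ k = -1) ∧
    ∑ k ∈ Finset.range K, ∑ l ∈ Finset.range K, θ k * θ l * M k l ≤
      ∑ k ∈ Finset.range K, M k k := by
  induction K with
  | zero => exact ⟨fun _ => 1, fun _ => Or.inl rfl, by simp⟩
  | succ K ih =>
    obtain ⟨θ, h1, h2⟩ := ih
    set Xv := ∑ l ∈ Finset.range K, θ l * (M K l + M l K) with hXv
    set s : ℝ := if 0 ≤ Xv then -1 else 1 with hs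
    have hs1 : s = 1 ∨ s = -1 := by
      rw [hs]; split_ifs
      · exact Or.inr rfl
      · exact Or.inl rfl
    have hsX : s * Xv ≤ 0 := by
      rw [hs]; split_ifs with h
      · linarith
      · linarith [not_le.1 h]
    have hss : s * s = 1 := by rcases hs1 with h | h <;> rw [h] <;> norm_num
    refine ⟨Function.update θ K s, fun k => ?_, ?_⟩
    · by_cases hk : k = K
      · rw [hk, Function.update_self]; exact hs1
      · rw [Function.update_of_ne hk]; exact h1 k
    · have e1 : ∀ k ∈ Finset.range K, Function.update θ K s k = θ k := fun k hk =>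
        Function.update_of_ne (Finset.mem_range.1 hk).ne _ _
      have e2 : ∑ k ∈ Finset.range (K + 1), ∑ l ∈ Finset.range (K + 1),
          Function.update θ K s k * Function.update θ K s l * M k l =
          ∑ k ∈ Finset.range K, ∑ l ∈ Finset.range K, θ k * θ l * M k l + s * Xv + M K K := by
        rw [Finset.sum_range_succ]
        have e3 : ∀ k ∈ Finset.range K, ∑ l ∈ Finset.range (K + 1),
            Function.update θ K s k * Function.update θ K s l * M k l =
            ∑ l ∈ Finset.range K, θ k * θ l * M k l + θ k * s * M k K := by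
          intro k hk
          rw [Finset.sum_range_succ, e1 k hk, Function.update_self]
          congr 1
          exact Finset.sum_congr rfl fun l hl => by rw [e1 l hl]
        rw [Finset.sum_congr rfl e3, Finset.sum_add_distrib, Finset.sum_range_succ,
          Function.update_self]
        have e4 : ∑ l ∈ Finset.range K, s * Function.update θ K s l * M K l =
            ∑ l ∈ Finset.range K, s * θ l * M K l :=
          Finset.sum_congr rfl fun l hl => by rw [e1 l hl]
        rw [e4, hXv, Finset.mul_sum, hss]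
        have e5 : ∑ i ∈ Finset.range K, s * (θ i * (M K i + M i K)) =
            ∑ l ∈ Finset.range K, θ l * s * M l K + ∑ l ∈ Finset.range K, s * θ l * M K l := by
          rw [← Finset.sum_add_distrib]
          exact Finset.sum_congr rfl fun l _ => by ring
        rw [e5]
        ring
      rw [e2, Finset.sum_range_succ]
      linarith

/-- there is no bounded-below sequence with bounded signed sums -/
theorem no_wuc {z : ℕ → (V →L[ℝ] ℝ)} (hz : ∀ k, z k ∈ Xs) {C : ℝ} (hW : WUC z C) {δ : ℝ}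
    (hδ : 0 < δ) (hn : ∀ k, δ ≤ ‖z k‖) : False := by
  have hC := hW.nonneg
  obtain ⟨K, hK⟩ := exists_nat_gt (32 * C ^ 2 / δ ^ 2)
  rw [div_lt_iff₀ (by positivity)] at hK
  have hK0 : (0 : ℝ) < K := by
    by_contra h
    have h1 : (K : ℝ) = 0 := le_antisymm (not_lt.1 h) (by positivity)
    rw [h1, zero_mul] at hK
    have : 0 ≤ 32 * C ^ 2 := by positivity
    linarith
  set η := δ / (24 * K) with hη
  have hη0 : 0 < η := by positivity
  obtain ⟨k₀, hk₀⟩ := eventually_atTop.1 (vertical_small hz hW hη0)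
  -- norming points
  have hex : ∀ i : ℕ, ∃ p : V, ‖p‖ ≤ 1 ∧ δ / 2 ≤ z (k₀ + i) p := by
    intro i
    obtain ⟨x, hx1, hx2⟩ := (z (k₀ + i)).exists_lt_apply_of_lt_opNorm
      (lt_of_lt_of_le (by linarith : δ / 2 < δ) (hn (k₀ + i)))
    rw [Real.norm_eq_abs] at hx2
    rcases lt_abs.1 hx2 with h | h
    · exact ⟨x, hx1.le, h.le⟩
    · exact ⟨-x, by rw [norm_neg]; exact hx1.le, by rw [map_neg]; exact h.le⟩
  choose p hp1 hp2 using hex
  obtain ⟨θ, hθ, hsum⟩ := exists_signs
    (fun i l => δ / 4 * inner ℝ (hh (p i)) (hh (p l)) - z (k₀ + i) (p l)) K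
  have hθ1 : ∀ i, |θ i| = 1 := fun i => by
    rcases hθ i with h | h <;> rw [h] <;> simp
  set s : V := ∑ l ∈ Finset.range K, θ l • p l with hs
  set A : Hl := hh s with hA
  have hAs : A = ∑ l ∈ Finset.range K, θ l • hh (p l) := by
    rw [hA, hs]
    have : ∀ S : Finset ℕ, hh (∑ l ∈ S, θ l • p l) = ∑ l ∈ S, θ l • hh (p l) := by
      intro S
      induction S using Finset.induction_on with
      | empty => rw [Finset.sum_empty, Finset.sum_empty, hh_zero]
      | insert a S ha ih => rw [Finset.sum_insert ha, Finset.sum_insert ha, hh_add, ih, hh_smul]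
    exact this _
  have hsK : ‖s‖ ≤ K := by
    rw [hs]
    refine (norm_sum_le _ _).trans ?_
    refine (Finset.sum_le_card_nsmul _ _ 1 fun l _ => ?_).trans (by simp)
    rw [norm_smul, Real.norm_eq_abs, hθ1, one_mul]
    exact hp1 l
  have hAK : ‖A‖ ≤ K := (norm_hh_le s).trans hsK
  obtain ⟨q, hq1, hq2⟩ := exists_lift A
  -- expansions
  have e1 : ∑ i ∈ Finset.range K, ∑ l ∈ Finset.range K, θ i * θ l *
      (δ / 4 * inner ℝ (hh (p i)) (hh (p l)) - z (k₀ + i) (p l)) =
      δ / 4 * ‖A‖ ^ 2 - ∑ i ∈ Finset.range K, θ i * z (k₀ + i) s := by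
    have e2 : ‖A‖ ^ 2 = ∑ i ∈ Finset.range K, ∑ l ∈ Finset.range K,
        θ i * (θ l * inner ℝ (hh (p i)) (hh (p l))) := by
      rw [← real_inner_self_eq_norm_sq, hAs, sum_inner]
      refine Finset.sum_congr rfl fun i _ => ?_
      rw [inner_sum]
      refine Finset.sum_congr rfl fun l _ => ?_
      rw [inner_smul_left, inner_smul_right]
      rfl
    have e3 : ∀ i, z (k₀ + i) s = ∑ l ∈ Finset.range K, θ l * z (k₀ + i) (p l) := by
      intro i
      rw [hs, map_sum]
      exact Finset.sum_congr rfl fun l _ => by rw [map_smul, smul_eq_mul]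
    rw [e2, Finset.mul_sum, ← Finset.sum_sub_distrib]
    refine Finset.sum_congr rfl fun i _ => ?_
    rw [e3 i, Finset.mul_sum, Finset.mul_sum, ← Finset.sum_sub_distrib]
    refine Finset.sum_congr rfl fun l _ => by ring
  have e4 : ∑ i ∈ Finset.range K, (δ / 4 * inner ℝ (hh (p i)) (hh (p i)) - z (k₀ + i) (p i)) ≤
      K * (δ / 4 - δ / 2) := by
    refine (Finset.sum_le_card_nsmul _ _ (δ / 4 - δ / 2) fun i _ => ?_).trans (by simp)
    have h1 : inner ℝ (hh (p i)) (hh (p i)) ≤ 1 := by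
      rw [real_inner_self_eq_norm_sq]
      exact pow_le_one₀ (norm_nonneg _) ((norm_hh_le _).trans (hp1 i))
    have h2 := hp2 i
    nlinarith
  -- the sum over the signs
  have e5 : ∑ i ∈ Finset.range K, θ i * z (k₀ + i) s ≤ 2 * C * ‖A‖ + K * (η * (3 * K)) := by
    have h1 : ∀ i, z (k₀ + i) s = z (k₀ + i) q - z (k₀ + i) (q - s) := by
      intro i; rw [map_sub]; ring
    have h2 : ∑ i ∈ Finset.range K, θ i * z (k₀ + i) s =
        ∑ i ∈ Finset.range K, θ i * z (k₀ + i) q -
        ∑ i ∈ Finset.range K, θ i * z (k₀ + i) (q - s) := by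
      rw [← Finset.sum_sub_distrib]
      exact Finset.sum_congr rfl fun i _ => by rw [h1 i]; ring
    have h3 : ∑ i ∈ Finset.range K, θ i * z (k₀ + i) q ≤ 2 * C * ‖A‖ := by
      have h4 := hW.apply ((Finset.range K).image (fun i => k₀ + i)) (fun k => θ (k - k₀))
        (fun k => (hθ1 _).le) q
      rw [Finset.sum_image (by intro a _ b _ hab; simpa using hab)] at h4
      simp only [Nat.add_sub_cancel_left] at h4
      refine (le_abs_self _).trans (h4.trans ?_)
      calc C * ‖q‖ ≤ C * (2 * ‖A‖) := mul_le_mul_of_nonneg_left hq2 hC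
        _ = 2 * C * ‖A‖ := by ring
    have h5 : |∑ i ∈ Finset.range K, θ i * z (k₀ + i) (q - s)| ≤ K * (η * (3 * K)) := by
      refine (Finset.abs_sum_le_sum_abs _ _).trans ?_
      refine (Finset.sum_le_card_nsmul _ _ (η * (3 * K)) fun i _ => ?_).trans (by simp)
      rw [abs_mul, hθ1, one_mul]
      have h6 : hh (q - s) = 0 := by rw [hh_sub, hq1, sub_self]
      refine (hk₀ (k₀ + i) (Nat.le_add_right _ _) (q - s) h6).trans ?_
      refine mul_le_mul_of_nonneg_left ?_ hη0.le
      have := norm_sub_le q s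
      linarith
    rw [h2]
    linarith [(abs_le.1 h5).1]
  rw [e1] at hsum
  have h7 := hsum.trans e4
  -- final inequality
  have h8 : K * (η * (3 * K)) = K * δ / 8 := by
    rw [hη]; field_simp; norm_num
  have h9 : 2 * C * ‖A‖ ≤ δ / 4 * ‖A‖ ^ 2 + 4 * C ^ 2 / δ := by
    have : 0 ≤ (δ / 2 * ‖A‖ - 2 * C) ^ 2 / δ := by positivity
    have e6 : (δ / 2 * ‖A‖ - 2 * C) ^ 2 / δ = δ / 4 * ‖A‖ ^ 2 - 2 * C * ‖A‖ + 4 * C ^ 2 / δ := by
      field_simp
      ring
    linarith
  have h10 : K * δ / 8 ≤ 4 * C ^ 2 / δ := by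
    linarith
  rw [le_div_iff₀ hδ] at h10
  nlinarith

end Pool.Agent.Lib.MP_d7d6c7_an
end

section

/-!
# The sequence of the first generators is limited and not relatively compact
-/

namespace Pool.Agent.Lib.MP_d7d6c7_an

open Filter Topology Set

/-- the Banach space -/
def XX : Type := Xs

noncomputable instance : NormedAddCommGroup XX := inferInstanceAs (NormedAddCommGroup Xs)
noncomputable instance : NormedSpace ℝ XX := inferInstanceAs (NormedSpace ℝ Xs)
instance : CompleteSpace XX := inferInstanceAs (CompleteSpace Xs)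

/-- the underlying functional -/
def cx (x : XX) : V →L[ℝ] ℝ := Subtype.val (show Xs from x)

theorem cx_mem (x : XX) : cx x ∈ Xs := Subtype.prop (show Xs from x)
theorem cx_add (x y : XX) : cx (x + y) = cx x + cx y := rfl
theorem cx_sub (x y : XX) : cx (x - y) = cx x - cx y := rfl
theorem cx_smul (c : ℝ) (x : XX) : cx (c • x) = c • cx x := rfl
theorem cx_zero : cx 0 = 0 := rfl
theorem norm_cx (x : XX) : ‖cx x‖ = ‖x‖ := rfl

/-- the first kind of generators, in the space -/
noncomputable def EgX (k : ℕ) : XX := (⟨Eg k, Eg_mem k⟩ : Xs)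

/-- the second kind of generators, in the space -/
noncomputable def YgX (l : La) : XX := (⟨Yg l, Yg_mem l⟩ : Xs)

theorem cx_EgX (k : ℕ) : cx (EgX k) = Eg k := rfl
theorem cx_YgX (l : La) : cx (YgX l) = Yg l := rfl

theorem cx_sum (S : Finset ℕ) (g : ℕ → XX) : cx (∑ k ∈ S, g k) = ∑ k ∈ S, cx (g k) := by
  classical
  induction S using Finset.induction_on with
  | empty => rw [Finset.sum_empty, Finset.sum_empty, cx_zero]
  | insert a S ha ih => rw [Finset.sum_insert ha, Finset.sum_insert ha, cx_add, ih]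

/-- the relation vectors -/
noncomputable def relX (q : Rel) : XX :=
  ((mm q.1.1.2 : ℝ)⁻¹) • ∑ r ∈ Finset.range (mm q.1.1.2),
    (YgX (q.1.1, q.1.2.2 r) - YgX (q.1.1, q.1.2.2 (mm q.1.1.2 + r))) -
    EgX (q.1.1.1.1 q.1.2.1)

theorem relX_coe_apply (q : Rel) (p : V) :
    ((q.1.1.2 : ℝ) + 1) * cx (relX q) p = relv (hh p) (ph p) q := by
  unfold relX relv
  congr 1
  rw [cx_sub, cx_smul, cx_sum, sub_apply, smul_apply, sum_apply, smul_eq_mul, cx_EgX, Eg_apply]
  simp only [cx_sub, cx_YgX, sub_apply, Yg_apply]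
  rw [div_eq_inv_mul]

theorem norm_relX_le (q : Rel) : ‖relX q‖ ≤ 1 / ((q.1.1.2 : ℝ) + 1) := by
  have hn : (0 : ℝ) < (q.1.1.2 : ℝ) + 1 := by positivity
  rw [← norm_cx]
  refine ContinuousLinearMap.opNorm_le_bound _ (by positivity) fun p => ?_
  have h1 := relX_coe_apply q p
  have h2 := abs_relv_le p q
  rw [← h1, abs_mul, abs_of_pos hn] at h2
  rw [Real.norm_eq_abs, div_mul_eq_mul_div, one_mul, le_div_iff₀ hn]
  linarith

theorem isOpen_cyl (i : ℕ) (x : G) : IsOpen {y : G | ∀ k < i, y k = x k} := by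
  have : {y : G | ∀ k < i, y k = x k} = ⋂ k ∈ Set.Iio i, {y : G | y k = x k} := by
    ext y; simp
  rw [this]
  refine (Set.finite_Iio i).isOpen_biInter fun k _ => ?_
  exact (isOpen_discrete ({x k} : Set ℕ)).preimage (continuous_apply (A := fun _ => ℕ) k)

theorem isOpen_P (i r : ℕ) : IsOpen (P i r) := by
  have h1 := isOpen_cyl i (w i)
  have h2 : IsOpen {y : G | y i = r} :=
    (isOpen_discrete ({r} : Set ℕ)).preimage (continuous_apply (A := fun _ => ℕ) i)
  exact h1.inter h2

theorem nonempty_P (i r : ℕ) : (P i r).Nonempty := by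
  refine ⟨fun k => if k = i then r else w i k, fun k hk => ?_, ?_⟩
  · simp [hk.ne]
  · simp

theorem limited_core (f : ℕ → (XX →L[ℝ] ℝ))
    (hf : ∀ x : XX, Tendsto (fun n => f n x) atTop (𝓝 0)) {ε : ℝ} (hε : 0 < ε) :
    ∀ᶠ n in atTop, ∀ k, |f n (EgX k)| ≤ ε := by
  by_contra hcon
  have hcon' : ∃ᶠ n in atTop, ∃ k, ε < |f n (EgX k)| := by
    rw [not_eventually] at hcon
    refine hcon.mono fun n hn => ?_
    push Not at hn
    exact hn
  -- uniform bound
  obtain ⟨N, hN⟩ : ∃ N : ℝ, ∀ n, ‖f n‖ ≤ N := by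
    refine banach_steinhaus fun x => ?_
    obtain ⟨C, hC⟩ := (hf x).norm.bddAbove_range
    exact ⟨C, fun n => hC ⟨n, rfl⟩⟩
  have hN0 : 0 ≤ N := (norm_nonneg _).trans (hN 0)
  -- extraction
  obtain ⟨s, hs1, hs2⟩ := exists_seq_of_forall_finset_exists
    (fun a : ℕ × ℕ => ε < |f a.1 (EgX a.2)|) (fun a b : ℕ × ℕ => a.1 < b.1 ∧ a.2 ≠ b.2)
    (by
      intro s _
      have h1 : ∀ᶠ n in atTop, ∀ a ∈ s, a.1 < n ∧ |f n (EgX a.2)| < ε := by
        rw [Filter.eventually_all_finset]
        intro a _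
        refine (eventually_gt_atTop a.1).and ?_
        have := (hf (EgX a.2)).abs
        rw [abs_zero] at this
        exact this.eventually_lt_const hε
      obtain ⟨n, ⟨k, hk⟩, hn⟩ := (hcon'.and_eventually h1).exists
      refine ⟨(n, k), hk, fun a ha => ⟨(hn a ha).1, ?_⟩⟩
      intro h
      have h2 := (hn a ha).2
      have h3 : a.2 = k := h
      rw [h3] at h2
      exact absurd hk (not_lt.2 h2.le))
  have hmono : StrictMono fun i => (s i).1 := fun a b hab => (hs2 a b hab).1
  have hinj : Function.Injective fun i => (s i).2 := by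
    intro a b hab
    by_contra hne
    rcases lt_or_gt_of_ne hne with h | h
    · exact (hs2 a b h).2 hab
    · exact (hs2 b a h).2 hab.symm
  obtain ⟨n, hn⟩ := exists_nat_gt (N / (ε / 4))
  have hn' : N / ((n : ℝ) + 1) < ε / 4 := by
    rw [div_lt_iff₀ (by positivity)]
    rw [div_lt_iff₀ (by positivity)] at hn
    nlinarith
  let ω : Om := (⟨fun i => (s i).2, hinj⟩, n)
  let Γ : ℕ → Set G := fun l => {x | ∀ i, l ≤ i → |f (s i).1 (YgX (ω, x))| ≤ ε / 8}
  have hU : ⋃ l, closure (Γ l) = univ := by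
    refine eq_univ_of_forall fun x => ?_
    have h1 : Tendsto (fun i => |f (s i).1 (YgX (ω, x))|) atTop (𝓝 0) := by
      have := ((hf (YgX (ω, x))).comp hmono.tendsto_atTop).abs
      rwa [abs_zero] at this
    have h2 := h1.eventually_lt_const (show (0 : ℝ) < ε / 8 by positivity)
    obtain ⟨l, hl⟩ := eventually_atTop.1 h2
    exact mem_iUnion.2 ⟨l, subset_closure fun i hi => (hl i hi).le⟩
  obtain ⟨l, x0, hx0⟩ := nonempty_interior_of_iUnion_of_closed
    (fun l => isClosed_closure (s := Γ l)) hU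
  obtain ⟨I, u, hIu, hsub⟩ := isOpen_pi_iff.1 (isOpen_interior (s := closure (Γ l))) x0 hx0
  obtain ⟨i, hi1, hi2, hi3⟩ := w_spec x0 (I.sup id + 1) l
  have hPsub : ∀ r, P i r ⊆ closure (Γ l) := by
    intro r y hy
    refine interior_subset (hsub ?_)
    intro a ha
    have ha1 : a < I.sup id + 1 := Nat.lt_succ_of_le (Finset.le_sup (f := id) ha)
    have : y a = x0 a := by rw [hy.1 a (lt_of_lt_of_le ha1 hi2), hi3 a ha1]
    rw [this]
    exact (hIu a ha).2
  have hξ : ∀ r, ∃ y, y ∈ P i r ∧ y ∈ Γ l := by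
    intro r
    obtain ⟨y, hy⟩ := nonempty_P i r
    obtain ⟨z, hz1, hz2⟩ := mem_closure_iff.1 (hPsub r hy) _ (isOpen_P i r) hy
    exact ⟨z, hz1, hz2⟩
  choose ξ hξ1 hξ2 using hξ
  let q : Rel := ⟨(ω, i, ξ), hξ1⟩
  have h1 := norm_relX_le q
  have hm : (0 : ℝ) < mm n := by exact_mod_cast mm_pos n
  have h2 : |f (s i).1 (relX q)| < ε / 4 := by
    have := (f (s i).1).le_opNorm (relX q)
    rw [Real.norm_eq_abs] at this
    refine (this.trans (mul_le_mul (hN _) h1 (norm_nonneg _) hN0)).trans_lt ?_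
    rw [mul_one_div]
    exact hn'
  have h3 : EgX (s i).2 = ((mm n : ℝ)⁻¹) • ∑ r ∈ Finset.range (mm n),
      (YgX (ω, ξ r) - YgX (ω, ξ (mm n + r))) - relX q := by
    unfold relX
    rw [sub_sub_cancel]
  have h4 : f (s i).1 (EgX (s i).2) = (mm n : ℝ)⁻¹ * ∑ r ∈ Finset.range (mm n),
      (f (s i).1 (YgX (ω, ξ r)) - f (s i).1 (YgX (ω, ξ (mm n + r)))) -
      f (s i).1 (relX q) := by
    rw [h3, map_sub, map_smul, map_sum, smul_eq_mul]
    simp only [map_sub]
  have h5 : |(mm n : ℝ)⁻¹ * ∑ r ∈ Finset.range (mm n),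
      (f (s i).1 (YgX (ω, ξ r)) - f (s i).1 (YgX (ω, ξ (mm n + r))))| ≤ ε / 4 := by
    rw [abs_mul, abs_of_pos (by positivity), inv_mul_le_iff₀ hm]
    refine (Finset.abs_sum_le_sum_abs _ _).trans ?_
    have : ∀ r ∈ Finset.range (mm n),
        |f (s i).1 (YgX (ω, ξ r)) - f (s i).1 (YgX (ω, ξ (mm n + r)))| ≤ ε / 4 := by
      intro r _
      have e1 := hξ2 r i hi1
      have e2 := hξ2 (mm n + r) i hi1
      refine (abs_sub _ _).trans ?_
      linarith
    refine (Finset.sum_le_sum this).trans ?_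
    rw [Finset.sum_const, Finset.card_range, nsmul_eq_mul]
  have h6 : |f (s i).1 (EgX (s i).2)| ≤ ε / 4 + ε / 4 := by
    rw [h4]
    refine (abs_sub _ _).trans ?_
    linarith
  have h7 : ε < |f (s i).1 (EgX (s i).2)| := hs1 i
  linarith

/-- separation -/
theorem norm_EgX_sub {k l : ℕ} (h : k ≠ l) : 1 / 2 ≤ ‖EgX k - EgX l‖ := by
  obtain ⟨p, hp1, hp2⟩ := exists_lift (ee k)
  have h1 : cx (EgX k - EgX l) p = 1 := by
    rw [cx_sub, sub_apply, cx_EgX, cx_EgX, Eg_apply, Eg_apply, hp1]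
    have e1 : inner ℝ (ee k) (ee k) = (1 : ℝ) := by
      rw [real_inner_self_eq_norm_sq, ee_orthonormal.1]; norm_num
    have e2 : inner ℝ (ee l) (ee k) = (0 : ℝ) := ee_orthonormal.2 h.symm
    rw [e1, e2, sub_zero]
  rw [ee_orthonormal.1 k, mul_one] at hp2
  have h2 := (cx (EgX k - EgX l)).le_opNorm p
  rw [h1, norm_one, norm_cx] at h2
  have h4 : ‖EgX k - EgX l‖ * ‖p‖ ≤ ‖EgX k - EgX l‖ * 2 :=
    mul_le_mul_of_nonneg_left hp2 (norm_nonneg _)
  linarith

theorem not_compact : ¬ IsCompact (closure (Set.range EgX)) := by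
  intro h
  obtain ⟨a, -, φ, hφ, ha⟩ := h.tendsto_subseq (x := EgX) fun n => subset_closure ⟨n, rfl⟩
  have hc := ha.cauchySeq
  obtain ⟨n, hn⟩ := Metric.cauchySeq_iff'.1 hc (1 / 2) (by norm_num)
  have h1 := hn (n + 1) (Nat.le_succ n)
  have h2 : φ (n + 1) ≠ φ n := (hφ (Nat.lt_succ_self n)).ne'
  have h3 := norm_EgX_sub h2
  rw [dist_eq_norm] at h1
  exact absurd h1 (not_lt.2 h3)

end Pool.Agent.Lib.MP_d7d6c7_an
end

section

/-!
# The space contains no copy of `c₀`
-/

namespace Pool.Agent.Lib.MP_d7d6c7_an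

open Filter Topology Set
open scoped ZeroAtInfty

/-- finitely supported elements of `c₀` -/
noncomputable def ez (S : Finset ℕ) (θ : ℕ → ℝ) : ℕ →C₀ ℝ where
  toFun n := if n ∈ S then θ n else 0
  continuous_toFun := continuous_of_discreteTopology
  zero_at_infty' := by
    rw [cocompact_eq_cofinite]
    refine tendsto_const_nhds.congr' ?_
    refine Set.Finite.subset S.finite_toSet ?_
    intro n hn
    by_contra h
    refine hn ?_
    have h' : n ∉ S := h
    show (0 : ℝ) = if n ∈ S then θ n else 0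
    rw [if_neg h']

theorem ez_apply (S : Finset ℕ) (θ : ℕ → ℝ) (n : ℕ) : ez S θ n = if n ∈ S then θ n else 0 := rfl

theorem norm_ez_le (S : Finset ℕ) (θ : ℕ → ℝ) (hθ : ∀ k, |θ k| ≤ 1) : ‖ez S θ‖ ≤ 1 := by
  rw [← ZeroAtInftyContinuousMap.norm_toBCF_eq_norm,
    BoundedContinuousFunction.norm_le zero_le_one]
  intro n
  show ‖ez S θ n‖ ≤ 1
  rw [ez_apply]
  split_ifs
  · exact hθ n
  · simp

theorem one_le_norm_ez (k : ℕ) : 1 ≤ ‖ez {k} 1‖ := by
  rw [← ZeroAtInftyContinuousMap.norm_toBCF_eq_norm]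
  have h := (ez {k} 1).toBCF.norm_coe_le_norm k
  have h1 : (ez {k} 1).toBCF k = 1 := by
    show ez {k} 1 k = 1
    rw [ez_apply]; simp
  rwa [h1, norm_one] at h

theorem sum_ez (S : Finset ℕ) (θ : ℕ → ℝ) : ∑ k ∈ S, θ k • ez {k} 1 = ez S θ := by
  classical
  induction S using Finset.induction_on with
  | empty =>
    rw [Finset.sum_empty]
    ext n
    rw [ez_apply]; simp
  | insert a S ha ih =>
    rw [Finset.sum_insert ha, ih]
    ext n
    rw [ZeroAtInftyContinuousMap.add_apply, ZeroAtInftyContinuousMap.smul_apply, ez_apply,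
      ez_apply, ez_apply, smul_eq_mul]
    by_cases h1 : n = a
    · subst h1; simp [ha]
    · simp [h1]

theorem cx_sum' (S : Finset ℕ) (g : ℕ → XX) : cx (∑ k ∈ S, g k) = ∑ k ∈ S, cx (g k) :=
  cx_sum S g

theorem no_c0 : ¬ ∃ (T : (ℕ →C₀ ℝ) →L[ℝ] XX) (c : ℝ), 0 < c ∧ ∀ x, ‖x‖ ≤ c * ‖T x‖ := by
  rintro ⟨T, c, hc, hT⟩
  refine no_wuc (z := fun k => cx (T (ez {k} 1))) (fun k => cx_mem _) (C := ‖T‖) ?_
    (δ := c⁻¹) (by positivity) ?_
  · intro S θ hθ
    have h1 : ∑ k ∈ S, θ k • cx (T (ez {k} 1)) = cx (T (ez S θ)) := by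
      rw [← sum_ez, map_sum, cx_sum]
      refine Finset.sum_congr rfl fun k _ => ?_
      rw [map_smul, cx_smul]
    rw [h1, norm_cx]
    refine (T.le_opNorm _).trans ?_
    exact mul_le_of_le_one_right (norm_nonneg _) (norm_ez_le S θ hθ)
  · intro k
    rw [norm_cx]
    have h1 := hT (ez {k} 1)
    have h2 := one_le_norm_ez k
    rw [inv_le_iff_one_le_mul₀ hc]
    linarith

end Pool.Agent.Lib.MP_d7d6c7_an
end
end
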